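import Pool.Agent.Helper93.WC.St

set_option autoImplicit false

namespace Pool.Agent.Helper72.WC

open Polynomial Helper62.Weber Pool.Agent.Helper93.WC

/-- The zeros of `∑ κ^j / (x + j R)`. -/
theorem poly_bound {F : Type} [Field F] (l J : ℕ) [CharP F l] (κ R : F) (hJ : 1 ≤ J)
    (hJl : J ≤ l) (hR : R ≠ 0) (S : Finset F)
    (hS : ∀ x ∈ S, (∀ i < J, x + (i : F) * R ≠ 0) ∧
      ∑ j ∈ Finset.range J, κ ^ j / (x + (j : F) * R) = 0) : S.card ≤ J - 1 := by
  classical
  let N : F[X] := ∑ j ∈ Finset.range J, C (κ ^ j) *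
    ∏ i ∈ (Finset.range J).erase j, (X + C ((i : F) * R))
  have hdeg : N.natDegree ≤ J - 1 := by
    apply natDegree_sum_le_of_forall_le
    intro j hj
    refine (natDegree_C_mul_le _ _).trans ((natDegree_prod_le _ _).trans ?_)
    have h1 : ∑ i ∈ (Finset.range J).erase j, (X + C ((i : F) * R)).natDegree =
        ∑ i ∈ (Finset.range J).erase j, 1 := by
      apply Finset.sum_congr rfl
      intro i _
      exact natDegree_X_add_C _
    rw [h1, Finset.sum_const, smul_eq_mul, mul_one, Finset.card_erase_of_mem hj,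
      Finset.card_range]
  have heval : ∀ x, N.eval x = ∑ j ∈ Finset.range J, κ ^ j *
      ∏ i ∈ (Finset.range J).erase j, (x + (i : F) * R) := by
    intro x
    simp only [N, eval_finsetSum, eval_mul, eval_C, eval_prod, eval_add, eval_X]
  have hN : N ≠ 0 := by
    intro h0
    have h1 := heval 0
    rw [h0, eval_zero, Finset.sum_eq_single 0] at h1
    · rw [pow_zero, one_mul] at h1
      have h2 := h1.symm
      rw [Finset.prod_eq_zero_iff] at h2
      obtain ⟨i, hi, hi0⟩ := h2
      rw [Finset.mem_erase, Finset.mem_range] at hi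
      rw [zero_add, mul_eq_zero, or_iff_left hR, CharP.cast_eq_zero_iff F l] at hi0
      have := Nat.le_of_dvd (by omega) hi0
      omega
    · intro j hj hj0
      have : (0 : ℕ) ∈ (Finset.range J).erase j := by
        rw [Finset.mem_erase, Finset.mem_range]
        exact ⟨fun h => hj0 h.symm, by omega⟩
      rw [Finset.prod_eq_zero this (by simp), mul_zero]
    · intro h
      exact absurd (Finset.mem_range.2 (by omega)) h
  have hsub : S.val ⊆ N.roots := by
    intro x hx
    rw [mem_roots hN, IsRoot.def, heval]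
    obtain ⟨h1, h2⟩ := hS x hx
    have h3 : ∑ j ∈ Finset.range J, κ ^ j *
        ∏ i ∈ (Finset.range J).erase j, (x + (i : F) * R) =
        (∏ i ∈ Finset.range J, (x + (i : F) * R)) *
          ∑ j ∈ Finset.range J, κ ^ j / (x + (j : F) * R) := by
      rw [Finset.mul_sum]
      apply Finset.sum_congr rfl
      intro j hj
      rw [← Finset.mul_prod_erase _ _ hj]
      have := h1 j (Finset.mem_range.1 hj)
      generalize (∏ i ∈ (Finset.range J).erase j, (x + (i : F) * R)) = A
      generalize x + (j : F) * R = b at this ⊢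
      field_simp
    rw [h3, h2, mul_zero]
  exact (card_le_degree_of_subset_roots hsub).trans hdeg

theorem cCMB : CMB := by
  classical
  intro F _ l r D m0 _ κ hl hodd hκ hD hm0 hcop hsum
  have hl3 : 3 ≤ l := by
    have h2 := hl.two_le
    rcases hodd with ⟨k, hk⟩
    omega
  have hcast : ∀ a : ℕ, ((a : ℕ) : F) = 0 ↔ l ∣ a := fun a => CharP.cast_eq_zero_iff F l a
  have h2r : Nat.Coprime l (2 ^ r) := by
    apply Nat.Coprime.pow_right
    exact (Nat.coprime_primes hl Nat.prime_two).2 (by omega)
  -- bad residues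
  let Bad : ℕ → Prop := fun v => ∃ j, v + j * D < l ∧ l ∣ m0 + 2 ^ r * (v + j * D)
  have hbad : ∀ v < D, ∀ v' < D, Bad v → Bad v' → v = v' := by
    rintro v hv v' hv' ⟨j, hj, hj'⟩ ⟨i, hi, hi'⟩
    have key : ∀ w w' : ℕ, w ≤ w' → w' < l → l ∣ m0 + 2 ^ r * w → l ∣ m0 + 2 ^ r * w' →
        w = w' := by
      intro w w' hw hw' h1 h2
      have h3 : l ∣ (m0 + 2 ^ r * w') - (m0 + 2 ^ r * w) := Nat.dvd_sub h2 h1
      have h4 : (m0 + 2 ^ r * w') - (m0 + 2 ^ r * w) = 2 ^ r * (w' - w) := by
        rw [Nat.mul_sub]
        omega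
      rw [h4] at h3
      have h5 := h2r.dvd_of_dvd_mul_left h3
      by_contra hne
      have := Nat.le_of_dvd (by omega) h5
      omega
    have h : v + j * D = v' + i * D := by
      rcases le_total (v + j * D) (v' + i * D) with h | h
      · exact key _ _ h hi hj' hi'
      · exact (key _ _ h hj hi' hj').symm
    have h1 : (v + j * D) % D = v := by rw [Nat.add_mul_mod_self_right, Nat.mod_eq_of_lt hv]
    have h2 : (v' + i * D) % D = v' := by rw [Nat.add_mul_mod_self_right, Nat.mod_eq_of_lt hv']
    rw [← h1, ← h2, h]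
  -- the map into the field
  let f : ℕ → F := fun v => ((m0 + 2 ^ r * v : ℕ) : F)
  let R : F := ((2 ^ r * D : ℕ) : F)
  have hR : R ≠ 0 := by
    intro h
    rw [hcast] at h
    have h5 := h2r.dvd_of_dvd_mul_left h
    have := hcop.symm
    exact hl.one_lt.ne' (Nat.Coprime.eq_one_of_dvd this h5)
  have hfR : ∀ v j : ℕ, f v + (j : F) * R = ((m0 + 2 ^ r * (v + j * D) : ℕ) : F) := by
    intro v j
    simp only [f, R]
    push_cast
    ring
  have hinj : ∀ v < l, ∀ v' < l, f v = f v' → v = v' := by
    have key : ∀ v v' : ℕ, v ≤ v' → v' < l → f v = f v' → v = v' := by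
      intro v v' hv hv' h
      have h1 : ((2 ^ r * (v' - v) : ℕ) : F) = 0 := by
        simp only [f] at h
        have h2 : v' = v + (v' - v) := by omega
        rw [h2] at h
        push_cast [Nat.add_sub_cancel_left] at h ⊢
        have h3 : (2 : F) ^ r * ((v' - v : ℕ) : F) = 0 := by
          linear_combination -h
        exact h3
      rw [hcast] at h1
      have h5 := h2r.dvd_of_dvd_mul_left h1
      by_contra hne
      have := Nat.le_of_dvd (by omega) h5
      omega
    intro v hv v' hv' h
    rcases le_total v v' with h' | h'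
    · exact key _ _ h' hv' h
    · exact (key _ _ h' hv h.symm).symm
  -- the bound for a set of good residues with the same number of terms
  have hbound : ∀ (J : ℕ) (V : Finset ℕ), 1 ≤ J → J ≤ l →
      (∀ v ∈ V, v < D ∧ v < l ∧ ¬ Bad v ∧ ∀ j, v + j * D < l ↔ j < J) → V.card ≤ J - 1 := by
    intro J V hJ hJl hV
    have hc : (V.image f).card = V.card := by
      apply Finset.card_image_of_injOn
      intro v hv v' hv' h
      exact hinj v (hV v hv).2.1 v' (hV v' hv').2.1 h
    rw [← hc]
    apply poly_bound l J κ R hJ hJl hR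
    intro x hx
    rw [Finset.mem_image] at hx
    obtain ⟨v, hv, rfl⟩ := hx
    obtain ⟨h1, h2, h3, h4⟩ := hV v hv
    have h5 : ∀ j < J, ¬ l ∣ m0 + 2 ^ r * (v + j * D) := by
      intro j hj h
      exact h3 ⟨j, (h4 j).2 hj, h⟩
    constructor
    · intro j hj
      rw [hfR, Ne, hcast]
      exact h5 j hj
    · have h6 := hsum v h1
      have h7 : (Finset.range l).filter
          (fun j => v + j * D < l ∧ ¬ l ∣ m0 + 2 ^ r * (v + j * D)) = Finset.range J := by
        ext j
        rw [Finset.mem_filter, Finset.mem_range, Finset.mem_range]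
        constructor
        · rintro ⟨_, h8, _⟩
          exact (h4 j).1 h8
        · intro h8
          exact ⟨by omega, (h4 j).2 h8, h5 j h8⟩
      rw [h7] at h6
      rw [← h6]
      apply Finset.sum_congr rfl
      intro j _
      rw [hfR]
  -- numbers
  set Q := l / D with hQ
  set ρ := l % D with hρ
  have hdiv : D * Q + ρ = l := Nat.div_add_mod l D
  have hρD : ρ < D := Nat.mod_lt _ (by omega)
  have hρl : ρ ≤ l := Nat.mod_le _ _
  clear_value Q ρ
  clear hQ hρ
  have hQl : Q + 1 ≤ l := by
    have : 2 * Q ≤ D * Q := Nat.mul_le_mul_right _ hD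
    omega
  let V := (Finset.range D).filter (fun v => ¬ Bad v)
  let V1 := V.filter (fun v => v < ρ)
  let V2 := V.filter (fun v => ¬ v < ρ)
  have hV1 : V1.card ≤ Q := by
    have := hbound (Q + 1) V1 (by omega) hQl (by
      intro v hv
      rw [Finset.mem_filter, Finset.mem_filter, Finset.mem_range] at hv
      refine ⟨hv.1.1, by omega, hv.1.2, fun j => ⟨fun h => ?_, fun h => ?_⟩⟩
      · by_contra hc
        have : D * (Q + 1) ≤ j * D := by
          rw [mul_comm j D]
          exact Nat.mul_le_mul_left _ (by omega)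
        rw [Nat.mul_add] at this
        omega
      · have : j * D ≤ D * Q := by
          rw [mul_comm j D]
          exact Nat.mul_le_mul_left _ (by omega)
        omega)
    omega
  have hVc : D ≤ V.card + 1 := by
    have h1 := Finset.card_filter_add_card_filter_not (s := Finset.range D) (fun v => Bad v)
    have h2 : ((Finset.range D).filter (fun v => Bad v)).card ≤ 1 := by
      rw [Finset.card_le_one]
      intro a ha b hb
      rw [Finset.mem_filter, Finset.mem_range] at ha hb
      exact hbad a ha.1 b hb.1 ha.2 hb.2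
    rw [Finset.card_range] at h1
    have h3 : V.card = ((Finset.range D).filter (fun v => ¬ Bad v)).card := rfl
    omega
  have hVs : V1.card + V2.card = V.card :=
    Finset.card_filter_add_card_filter_not (fun v => v < ρ)
  rcases Nat.eq_zero_or_pos Q with hQ0 | hQ0
  · -- D > l
    exfalso
    have hlD : ρ = l := by rw [hQ0] at hdiv; omega
    rw [hQ0] at hV1
    -- among 0, 1 one is good
    have h01 : ∃ v, v < 2 ∧ ¬ Bad v := by
      by_contra hc
      push Not at hc
      have := hbad 0 (by omega) 1 (by omega) (hc 0 (by omega)) (hc 1 (by omega))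
      omega
    obtain ⟨v, hv, hvb⟩ := h01
    have : v ∈ V1 := by
      rw [Finset.mem_filter, Finset.mem_filter, Finset.mem_range]
      exact ⟨⟨by omega, hvb⟩, by omega⟩
    have := Finset.card_pos.2 ⟨v, this⟩
    omega
  · have hV2 : V2.card ≤ Q - 1 := by
      refine hbound Q V2 hQ0 (by omega) ?_
      intro v hv
      rw [Finset.mem_filter, Finset.mem_filter, Finset.mem_range] at hv
      have hDQ : D ≤ D * Q := Nat.le_mul_of_pos_right _ hQ0
      refine ⟨hv.1.1, by omega, hv.1.2, fun j => ⟨fun h => ?_, fun h => ?_⟩⟩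
      · by_contra hc
        have : D * Q ≤ j * D := by
          rw [mul_comm j D]
          exact Nat.mul_le_mul_left _ (by omega)
        omega
      · have : (j + 1) * D ≤ D * Q := by
          rw [mul_comm (j + 1) D]
          exact Nat.mul_le_mul_left _ (by omega)
        rw [Nat.add_mul] at this
        omega
    have hD2 : D ≤ 2 * Q := by omega
    calc D ^ 2 = D * D := sq D
      _ ≤ D * (2 * Q) := Nat.mul_le_mul_left _ hD2
      _ = 2 * (D * Q) := by ring
      _ ≤ 2 * l := by omega

end Pool.Agent.Helper72.WC
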